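import Mathlib
import Pool.Agent.MP_ac14a7_nt.Defs
import Pool.Agent.MP_ac14a7_nt.Final

/-!
Types of powers of S-numbers: for every `k ≥ 2` and every `ρ < k` there is a real S-number `ξ`
with `t(ξ ^ k) > ρ t(ξ)` and `t^*(ξ ^ k) > ρ t^*(ξ)`.
-/

open Pool.Agent.MP_ac14a7_nt

namespace Pool.Agent.Results.MP_ac14a7_nt.PowersOfSNumbers

theorem result (k : ℕ) (hk : 2 ≤ k) (ρ : ℝ) (hρ : 1 ≤ ρ) (hρk : ρ < k) :
    ∃ ξ : ℝ, IsSNumber ξ ∧ (ρ : EReal) * typeT ξ < typeT (ξ ^ k) ∧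
      (ρ : EReal) * typeTStar ξ < typeTStar (ξ ^ k) := by
  have hkρ : 0 < (k : ℝ) - ρ := by linarith
  obtain ⟨c₀, hc₀⟩ := exists_nat_gt (2 * ρ / ((k : ℝ) - ρ))
  rw [div_lt_iff₀ hkρ] at hc₀
  obtain ⟨ξ, hξ, h1, h2, h3, h4⟩ := exists_types (c₀ + 32) k (by omega) hk
  have hρ0 : (0 : EReal) ≤ (ρ : EReal) := by
    have : (0 : ℝ) ≤ ρ := by linarith
    exact_mod_cast this
  have hlt : ρ * (((c₀ + 32 : ℕ) : ℝ) + 2) < (k : ℝ) * ((c₀ + 32 : ℕ) : ℝ) := by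
    push_cast
    nlinarith
  have hlt' : ρ * ((c₀ + 32 : ℕ) : ℝ) < (k : ℝ) * ((c₀ + 32 : ℕ) : ℝ) := by
    nlinarith
  refine ⟨ξ, hξ, ?_, ?_⟩
  · refine lt_of_lt_of_le (lt_of_le_of_lt (mul_le_mul_of_nonneg_left h2 hρ0) ?_) h4
    rw [← EReal.coe_mul]
    exact_mod_cast hlt
  · refine lt_of_lt_of_le (lt_of_le_of_lt (mul_le_mul_of_nonneg_left h1 hρ0) ?_) h3
    rw [← EReal.coe_mul]
    exact_mod_cast hlt'

end Pool.Agent.Results.MP_ac14a7_nt.PowersOfSNumbers
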